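import Pool.Agent.Helper4_RED.ContMain

/-!
# MP_f28000_lc: maps of r.e. sets that are effective on computable sets

Let `F` be a map on r.e. sets that induces an order preserving map `π` on the r.e. degrees with `π a = π 0` only
for `a = 0` (for instance an automorphism, or an order embedding).  Suppose that `F` sends uniformly
computable sequences of sets to uniformly computable sequences (Banach-Mazur computability on
the computable sets), and that `F` is monotone for inclusion, or continuous along initial segments: `F X`
is the pointwise limit of `F (X ∩ [0, n))` (every enumeration operator and every Turing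
functional has this property).  Then `π` is the identity.  The preservation of the reducibility between
noncomputable sets is not assumed to be uniform.

Proof.  Let `A` be r.e. and not computable, with stages `A_s`, and let
`D = {⟨k, s⟩ : a number < k of A is not in A_s}` (deficiency set, Turing equivalent to `A`).

Monotone case.  Lower bound `A ≤ F A`: for every `x` the set `R x = D ∪ {⟨k, s⟩ : x < k}` is
computable, so `F (R x)` is computable and contains `F D`, which is not computable.  By compactness
(a failure of compactness would make `A` computable) there are a finite `l ⊆ R x` and `y ∈ F l`,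
`y ∉ F D`; a search with the oracle `F D ≤ F A` finds such `y`, `l` and a stage `s` which shows that
`x ∈ A` iff `x ∈ A_s`.  Upper bound: `F` is continuous at infinity (if `y ∉ F l`, `l` finite, then
`y ∉ F (l ∪ [N, ∞))` for some `N`, otherwise the uniformly computable sequence
`C m = l ∪ {x : m ∈ A_x}` would make `A` computable), so a modulus can be computed, and for a sparse
computable sequence `r` and `Y = {r k : k ∈ A}` the bit `F Y (y)` depends only on `A` below `y + 1`.

Continuous case.  There is a computable modulus for the extension of a finite set by one
point (diagonalization, helper25), so for a sparse computable `r` the bit `F {r u : u ∈ P} (y)` is a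
computable function of `P` below `y + 1`.  Upper bound: `P = A`.  Lower bound: `P = D`, `Z = {r u : u ∈ D}`.
If `x'` is the least number that enters `A` after stage `s` then `D` agrees with
`D_s ∪ {⟨k, t⟩ : x' < k}` below `s`; for every `x' ∉ A` these approximations converge to a computable
set, whose value under `F` is different from `F Z`, and the oracle `F Z ≤ F A` sees the difference.
-/

set_option autoImplicit false

namespace Pool.Agent.Results.MP_f28000_lc.BanachMazurMaps

open Classical in
/-- the characteristic function of a set -/
noncomputable def chi (A : ℕ → Prop) : ℕ →. ℕ := fun n => Part.some (if A n then (1 : ℕ) else 0)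

/-- `A` is Turing reducible to `B` -/
def Le (A B : ℕ → Prop) : Prop := TuringReducible (chi A) (chi B)

/-- the join of a sequence of sets: the set of the codes of the pairs `(i, x)` with `x ∈ C i` -/
def seqJoin (C : ℕ → ℕ → Prop) : ℕ → Prop := fun n => C (Nat.unpair n).1 (Nat.unpair n).2

/-- `F` is monotone for the inclusion of r.e. sets -/
def Monotone (F : (ℕ → Prop) → (ℕ → Prop)) : Prop :=
  ∀ X Y : ℕ → Prop, REPred X → REPred Y → (∀ x, X x → Y x) → ∀ y, F X y → F Y y

/-- for r.e. sets `X`, `F X` is the pointwise limit of the sets `F (X ∩ [0, n))` -/
def ContinuousAlong (F : (ℕ → Prop) → (ℕ → Prop)) : Prop :=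
  ∀ X : ℕ → Prop, REPred X → ∀ y, ∃ n₀, ∀ n ≥ n₀, (F (fun x => X x ∧ x < n) y ↔ F X y)

/-- **Theorem.** Let `F` be a map of sets such that for r.e. sets `A`, `B`: `A ≤ B` implies `F A ≤ F B`
(Turing reducibility), and `F A ≤ F ∅` only if `A` is computable.  Suppose that `F` sends uniformly
computable sequences of sets to uniformly computable sequences, and that `F` is monotone for the inclusion of
r.e. sets or continuous along initial segments of r.e. sets.  Then `F A` and `A` have the same
Turing degree for every r.e. set `A`. -/
theorem result (F : (ℕ → Prop) → (ℕ → Prop))
    (hle : ∀ A B, REPred A → REPred B → Le A B → Le (F A) (F B))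
    (hzero : ∀ A, REPred A → Le (F A) (F fun _ => False) → ComputablePred A)
    (hseq : ∀ C : ℕ → ℕ → Prop, ComputablePred (seqJoin C) →
      ComputablePred (seqJoin fun i => F (C i)))
    (hreg : Monotone F ∨ ContinuousAlong F) :
    ∀ A, REPred A → Le (F A) A ∧ Le A (F A) := by
  intro A hA
  have hF : Helper4RED.OrdMap F := ⟨hle, fun A hA h => Helper4RED.tle_of_comp (hzero A hA h) _⟩
  rcases hreg with h | h
  · exact ⟨Helper4RED.bm_upper h hseq hF hA, Helper4RED.bm_lower h hseq hF hA⟩
  · exact ⟨Helper4RED.cont_upper hseq h hF hA, Helper4RED.cont_lower hseq h hF hA⟩

end Pool.Agent.Results.MP_f28000_lc.BanachMazurMaps
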