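import Pool.Agent.Helper4_RED.MS

/-!
# MP_f28000_lc: enumeration operators that induce automorphisms of the r.e. degrees

Let `F` be a map of r.e. sets that induces an order preserving map `π` of the r.e. degrees with `π a = π 0`
only for `a = 0` (for instance an automorphism).  Suppose that `F` is an enumeration operator; by the
theorem of Myhill and Shepherdson this holds as soon as `F (W_c) = W_(f c)` for a computable `f` (so `f c`
depends, up to equality of r.e. sets, on the set `W_c` only).  No uniformity of the
preservation of Turing reducibility is assumed.  We prove `a ≤ π a` for every `a`.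
So a finite orbit of `π` is a fixed point (no automorphism of finite order, other than the
identity, is of this kind), and an automorphism is the identity if it and its inverse are of this
kind.  More generally the axioms of the operator may be r.e. in an oracle `E`.

Proof.  Let `A` be r.e. and not computable, with stages `A_s`.  The deficiency set
`D = {⟨k, s⟩ : a number < k of A is not in A_s}` (Dekker) is r.e. and Turing equivalent to `A`.  For
every `x` the set `R x = D ∪ {⟨k, s⟩ : x < k}` is computable, so `F (R x)` is as simple as `F ∅` and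
contains `F D`, which is not: there are an axiom `(y, l)` of `F` with `l ⊆ R x` and `y ∉ F D`.  Given
`x` we search with the oracle `F D ≤ F A` for such an axiom and a stage `s` which shows that every element of
`l` is in `D` or would be in `D` if `x` entered `A` after stage `s`; then `x ∈ A` iff `x ∈ A_s`.
-/

set_option autoImplicit false

namespace Pool.Agent.Results.MP_f28000_lc.EnumerationOperators

open Nat.Partrec (Code)

open Classical in
/-- the characteristic function of a set -/
noncomputable def chi (A : ℕ → Prop) : ℕ →. ℕ := fun n => Part.some (if A n then (1 : ℕ) else 0)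

/-- `A` is Turing reducible to `B` -/
def Le (A B : ℕ → Prop) : Prop := TuringReducible (chi A) (chi B)

/-- `A` and `B` have the same Turing degree -/
def Eqv (A B : ℕ → Prop) : Prop := Le A B ∧ Le B A

/-- `A` is computable from the two oracles `B` and `E` -/
def LeJ (A B E : ℕ → Prop) : Prop := RecursiveIn {chi B, chi E} (chi A)

/-- `F` maps r.e. sets to r.e. sets and induces an order preserving map `π` of the r.e. degrees with
`π a = π 0` only for `a = 0` -/
structure OrderMap (F : (ℕ → Prop) → (ℕ → Prop)) : Prop where
  re : ∀ A, REPred A → REPred (F A)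
  le : ∀ A B, REPred A → REPred B → Le A B → Le (F A) (F B)
  zero : ∀ A, REPred A → Le (F A) (F fun _ => False) → ComputablePred A

/-- `F` maps r.e. sets to r.e. sets and induces an order embedding of the r.e. degrees -/
structure Embeds (F : (ℕ → Prop) → (ℕ → Prop)) : Prop where
  re : ∀ A, REPred A → REPred (F A)
  iff : ∀ A B, REPred A → REPred B → (Le A B ↔ Le (F A) (F B))

/-- `F` is, on r.e. sets, an enumeration operator whose set of axioms `W` is r.e. in `E` -/
def EnumOp (E : ℕ → Prop) (F : (ℕ → Prop) → (ℕ → Prop)) : Prop :=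
  ∃ W : ℕ → List ℕ → Prop,
    (∃ q : (ℕ × List ℕ) × ℕ → Bool, ComputableIn {chi E} q ∧
      ∀ y l, W y l ↔ ∃ v, q ((y, l), v) = true) ∧
    ∀ X : ℕ → Prop, REPred X → ∀ y, F X y ↔ ∃ l : List ℕ, W y l ∧ ∀ u ∈ l, X u

/-- the `c`-th r.e. set: the domain of the partial function computed by `c` -/
def Wc (c : Code) : ℕ → Prop := fun n => (c.eval n).Dom

/-- the map `F` of r.e. sets is given by a computable function on indices -/
def IndexMap (F : (ℕ → Prop) → (ℕ → Prop)) : Prop :=
  ∃ f : Code → Code, Computable f ∧ ∀ c, F (Wc c) = Wc (f c)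

theorem lower {E : ℕ → Prop} {F : (ℕ → Prop) → (ℕ → Prop)} (hF : OrderMap F)
    (hE : EnumOp E F ∨ IndexMap F) {A : ℕ → Prop} (hA : REPred A) : LeJ A (F A) E := by
  have hF' : Helper4RED.OrdMap F :=
    ⟨hF.le, fun A hA h => Helper4RED.tle_of_comp (hF.zero A hA h) _⟩
  rcases hE with hE | ⟨f, hf, hf'⟩
  · exact Helper4RED.EnumOp.le (E := E) hE hF' hA
  · have h1 : Helper4RED.TLEJ A (F A) fun _ => False :=
      (Helper4RED.enumOp_of_index hf hf').le hF' hA
    exact (h1.tle (Helper4RED.tle_of_primrec Helper4RED.primrec_false _)).join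

theorem leJ_le {A B E : ℕ → Prop} (h : LeJ A B E) (h' : Le E B) : Le A B :=
  Helper4RED.TLEJ.tle (E := E) h h'

theorem le_of_comp {E : ℕ → Prop} (h : ComputablePred E) (B : ℕ → Prop) : Le E B :=
  Helper4RED.tle_of_comp h B

theorem Embeds.order {F : (ℕ → Prop) → (ℕ → Prop)} (hF : Embeds F) : OrderMap F := by
  refine ⟨hF.re, fun A B hA hB => (hF.iff A B hA hB).1, fun A hA h => ?_⟩
  have h1 : Le A fun _ => False := (hF.iff A _ hA Helper4RED.re_false).2 h
  exact Helper4RED.comp_of_tle h1

/-- **Theorem.** Let `F` be a map of r.e. sets that induces an order preserving map `π` of the r.e. degrees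
with `π a = π 0` only for `a = 0`, let `E` be any set, and let `F` be an enumeration operator with axioms
r.e. in `E`, or given by a computable function on r.e. indices.  Then for every r.e. set `A`:

(1) `A ≤ F A ⊕ E`, and `A ≤ F A` if `E` is computable;

(2) if `A` has a finite orbit then `F A ≤ A ⊕ E`, and `F A ≡ A` if `E` is computable;

(3) if `G` induces an order embedding that is a left inverse of `π`, and is of the same kind, then
`F A ≤ A ⊕ E`, and if `E` is r.e. then `F A ≡ A` for every r.e. set `A` above `E` (for
every r.e. `A` if `E` is computable). -/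
theorem result (E : ℕ → Prop) (F : (ℕ → Prop) → (ℕ → Prop)) (hF : OrderMap F)
    (hE : EnumOp E F ∨ IndexMap F) (A : ℕ → Prop) (hA : REPred A) :
    (LeJ A (F A) E ∧ (ComputablePred E → Le A (F A))) ∧
    ((∃ n, Eqv (F^[n + 1] A) A) → LeJ (F A) A E ∧ (ComputablePred E → Eqv (F A) A)) ∧
    (∀ G : (ℕ → Prop) → (ℕ → Prop), Embeds G → (EnumOp E G ∨ IndexMap G) →
      (∀ B, REPred B → Eqv (G (F B)) B) →
      LeJ (F A) A E ∧ (REPred E → Le E A → Eqv (F A) A)) := by
  have h1 := lower hF hE hA
  have hitre : ∀ n, REPred (F^[n] A) := by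
    intro n
    induction n with
    | zero => exact hA
    | succ n ih =>
      rw [Function.iterate_succ_apply']
      exact hF.re _ ih
  have horb : ∀ n, LeJ (F A) (F^[n + 1] A) E := by
    intro n
    induction n with
    | zero => exact Helper4RED.TLE.join (Helper4RED.TLE.refl _)
    | succ n ih =>
      refine Helper4RED.TLEJ.trans (B := F^[n + 1] A) ih ?_
      rw [Function.iterate_succ_apply' F (n + 1)]
      exact lower hF hE (hitre _)
  refine ⟨⟨h1, fun h => leJ_le h1 (le_of_comp h _)⟩, ?_, ?_⟩
  · rintro ⟨n, hn, -⟩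
    have h2 : LeJ (F A) A E :=
      Helper4RED.TLEJ.trans (B := F^[n + 1] A) (horb n) (Helper4RED.TLE.join hn)
    exact ⟨h2, fun h => ⟨leJ_le h2 (le_of_comp h _), leJ_le h1 (le_of_comp h _)⟩⟩
  · intro G hG hEG hGF
    have h2 : LeJ (F A) A E :=
      Helper4RED.TLEJ.trans (B := G (F A)) (lower hG.order hEG (hF.re A hA))
        (Helper4RED.TLE.join (hGF A hA).1)
    refine ⟨h2, fun hEre hEA => ⟨leJ_le h2 hEA, leJ_le h1 ?_⟩⟩
    -- E ≤ F (G E) ≤ F E ≤ F A
    have hGE : REPred (G E) := hG.re E hEre
    have h3 : LeJ (G E) E E := by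
      refine Helper4RED.TLEJ.trans (B := F (G E)) (lower hF hE hGE) (Helper4RED.TLE.join ?_)
      exact (hG.iff _ _ (hF.re _ hGE) hEre).2 (hGF (G E) hGE).1
    have h4 : Le (G E) E := leJ_le h3 (Helper4RED.TLE.refl E)
    have h5 : Le E (F (G E)) := (hG.iff _ _ hEre (hF.re _ hGE)).2 (hGF (G E) hGE).2
    have h6 : Le (F (G E)) (F E) := hF.le _ _ hGE hEre h4
    have h7 : Le (F E) (F A) := hF.le _ _ hEre hA hEA
    exact Helper4RED.TLE.trans h5 (Helper4RED.TLE.trans h6 h7)

end Pool.Agent.Results.MP_f28000_lc.EnumerationOperators
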