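import Pool.Agent.Helper4_RED.Use
import Pool.Agent.Helper4_RED.Bnd

/-!
# MP_f28000_lc: functions on r.e. indices that transform reductions effectively

An automorphism `π` of the r.e. degrees is always given by some function `f` on r.e. indices: the degree of
`W_(f i)` is `π` of the degree of `W_i`.  The function `f` need not be computable, and `W_(f i)` need not
be determined by the set `W_i`.  Suppose that for a fixed `j` the reductions of the *finite* sets
`W_i` to `W_j` are transformed into reductions of `W_(f i)` to `W_(f j)`, and back, with at most `m`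
candidates: functions `u` and `v` of `(t, e, i)`, computable from the oracle `W_j` (and a fixed set `E`),
give for some `t < m` such a reduction.  Then `W_(f j) ≤ W_j ⊕ E`.  If `g` is such a function for `π⁻¹`,
this gives `π a = a` for every r.e. degree `a` above the degree of `E`; for every `a` if `E` is computable.

Proof.  There is a computable `c` such that `W_(c k) = W_(f j) ∩ [0, k)`.  For every finite set `σ` let `e σ` be
a functional which computes `σ` whatever the oracle is.  For `t < m` the functionals `u (t, e σ, c k)`,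
`σ ⊆ [0, k)`, are combined to one functional `w (t, k)`: it reads the oracle `W_(f j)` below `k`, which is
the right `σ`, and follows `u (t, e σ, c k)`.  For some `t < m` this computes `W_(f (c k))` from `W_(f j)`, so that
one of the `m²` functionals `v (t', w (t, k), c k)` computes `W_(f j) ∩ [0, k)` from `W_j`.  So `W_j ⊕ E`
computes boundedly many (possibly undefined) candidates for the initial segment of length `k` of `W_(f j)`.  For
infinitely many `k` exactly the maximal number of candidates exists, and we can find such `k`; we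
get a decidable tree of bounded width with the path `W_(f j)`, and its paths are computable.
-/

set_option autoImplicit false

namespace Pool.Agent.Results.MP_f28000_lc.IndexAutomorphisms

open Nat.Partrec (Code)

open Classical in
/-- the characteristic function of a set -/
noncomputable def chi (A : ℕ → Prop) : ℕ →. ℕ := fun n => Part.some (if A n then (1 : ℕ) else 0)

/-- `A` is Turing reducible to `B` -/
def Le (A B : ℕ → Prop) : Prop := TuringReducible (chi A) (chi B)

/-- `A` is computable from the two oracles `B` and `E` -/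
def LeJ (A B E : ℕ → Prop) : Prop := RecursiveIn {chi B, chi E} (chi A)

/-- the `n`-th r.e. set: the domain of the `n`-th partial computable function -/
def W (n : ℕ) : ℕ → Prop := fun x => ((Denumerable.ofNat Code n).eval x).Dom

/-- `σ` is the code of the initial segment `B ∩ [0, k)` of `B` -/
def IsInit (B : ℕ → Prop) (k σ : ℕ) : Prop := ∀ i, Nat.testBit σ i = true ↔ i < k ∧ B i

/-- the functional with the set of axioms `W e` has with oracle `B` the value `b` at `n` -/
def Val (e : ℕ) (B : ℕ → Prop) (n b : ℕ) : Prop :=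
  ∃ k σ, IsInit B k σ ∧ W e (Nat.pair (Nat.pair n b) (Nat.pair k σ))

/-- the functional with the set of axioms `W e` computes (the characteristic function of) `A`
from the oracle `B` -/
def Computes (e : ℕ) (B A : ℕ → Prop) : Prop := ∀ n, (A n ↔ Val e B n 1) ∧ (¬ A n ↔ Val e B n 0)

/-- for some `m`, functions `u`, `v` computable from `W j` and `E` give lists of `m` candidates one of
which transforms the reduction `e` of the finite set `W i` to `W j` into a reduction of `W (f i)` to
`W (f j)`, and conversely -/
def EffectiveAt (E : ℕ → Prop) (f : ℕ → ℕ) (j : ℕ) : Prop :=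
  ∃ m : ℕ,
  (∃ u : ℕ → ℕ, ComputableIn {chi (W j), chi E} u ∧ ∀ e i, {x | W i x}.Finite →
    Computes e (W j) (W i) →
    ∃ t < m, Computes (u (Nat.pair t (Nat.pair e i))) (W (f j)) (W (f i))) ∧
  (∃ v : ℕ → ℕ, ComputableIn {chi (W j), chi E} v ∧ ∀ e i, {x | W i x}.Finite →
    Computes e (W (f j)) (W (f i)) →
    ∃ t < m, Computes (v (Nat.pair t (Nat.pair e i))) (W j) (W i))

/-- `f` induces an order embedding of the r.e. degrees -/
def Embeds (f : ℕ → ℕ) : Prop := ∀ i j, Le (W i) (W j) ↔ Le (W (f i)) (W (f j))

theorem isInit_iff {B : ℕ → Prop} {k σ : ℕ} : IsInit B k σ ↔ σ = Helper4RED.ini B k := by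
  constructor
  · intro h
    refine Nat.eq_of_testBit_eq fun i => ?_
    rw [Bool.eq_iff_iff, h, Helper4RED.ini_bit]
  · rintro rfl i
    exact Helper4RED.ini_bit B k i

theorem val_iff {e : ℕ} {B : ℕ → Prop} {n b : ℕ} :
    Val e B n b ↔ Helper4RED.Val (Helper4RED.cd e) B n b := by
  constructor
  · rintro ⟨k, σ, h, h'⟩
    rw [isInit_iff] at h
    rw [h] at h'
    exact ⟨k, h'⟩
  · rintro ⟨k, h⟩
    exact ⟨k, _, isInit_iff.2 rfl, h⟩

theorem computes_iff {e : ℕ} {B A : ℕ → Prop} :
    Computes e B A ↔ Helper4RED.Computes (Helper4RED.cd e) B A := by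
  unfold Computes Helper4RED.Computes
  simp only [val_iff]

theorem computableIn_iff {O : Set (ℕ →. ℕ)} {u : ℕ → ℕ} : ComputableIn O u ↔ Helper4RED.Cp O u :=
  RecursiveIn.iff_nat

theorem effectiveAt_iff {E : ℕ → Prop} {f : ℕ → ℕ} {j : ℕ} (h : EffectiveAt E f j) :
    Helper4RED.UnifBnd E f j := by
  obtain ⟨m, ⟨u, hu, hu'⟩, ⟨v, hv, hv'⟩⟩ := h
  refine ⟨m, ⟨u, computableIn_iff.1 hu, fun e i hi he => ?_⟩,
    ⟨v, computableIn_iff.1 hv, fun e i hi he => ?_⟩⟩
  · obtain ⟨t, ht, h1⟩ := hu' e i hi (computes_iff.2 he)
    exact ⟨t, ht, computes_iff.1 h1⟩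
  · obtain ⟨t, ht, h1⟩ := hv' e i hi (computes_iff.2 he)
    exact ⟨t, ht, computes_iff.1 h1⟩

/-- `A` is Turing reducible to `B` iff some r.e. set of axioms computes `A` from `B` -/
theorem exists_computes (A B : ℕ → Prop) : (∃ e, Computes e B A) ↔ Le A B := by
  constructor
  · rintro ⟨e, h⟩
    exact Helper4RED.tle_of_computes (computes_iff.1 h)
  · intro h
    obtain ⟨e, he⟩ := Helper4RED.computes_of_tle h
    refine ⟨Encodable.encode e, computes_iff.2 ?_⟩
    rw [Helper4RED.cd_encode]
    exact he

theorem exists_index {E : ℕ → Prop} (h : REPred E) : ∃ a, W a = E := by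
  obtain ⟨c, hc⟩ := Helper4RED.exists_wc h
  refine ⟨Encodable.encode c, ?_⟩
  rw [← hc]
  unfold W
  rw [Denumerable.ofNat_encode]
  rfl

theorem upper {E : ℕ → Prop} {f : ℕ → ℕ} {j : ℕ} (h : EffectiveAt E f j) :
    LeJ (W (f j)) (W j) E :=
  Helper4RED.index_bnd (effectiveAt_iff h)

/-- **Theorem.** Let `E` be a set.

(1) Let `f` be a function and `j` an index such that for some `m` functions computable from `W j` and `E`
give, for the reductions of finite sets `W i` to `W j`, lists of `m` candidates one of which is a reduction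
of `W (f i)` to `W (f j)`, and conversely.  Then `W (f j) ≤ W j ⊕ E`.

(2) Let `f` and `g` induce order embeddings of the r.e. degrees with `W (g (f j)) ≡ W j` for all `j`, and let both
have the property of (1) at every index.  Then `W (f j) ≤ W j ⊕ E` and `W j ≤ W (f j) ⊕ E` for all `j`,
and if `E` is r.e. then `W (f j) ≡ W j` for all `j` with `E ≤ W j`; so for all `j` if `E` is computable.

(3) The reductions by r.e. sets of axioms are the Turing reductions. -/
theorem result (E : ℕ → Prop) :
    (∀ (f : ℕ → ℕ) (j : ℕ), EffectiveAt E f j → LeJ (W (f j)) (W j) E) ∧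
    (∀ f g : ℕ → ℕ, Embeds f → Embeds g →
      (∀ j, Le (W (g (f j))) (W j) ∧ Le (W j) (W (g (f j)))) →
      (∀ j, EffectiveAt E f j ∧ EffectiveAt E g j) →
      ∀ j, LeJ (W (f j)) (W j) E ∧ LeJ (W j) (W (f j)) E ∧
        (REPred E → Le E (W j) → Le (W (f j)) (W j) ∧ Le (W j) (W (f j))) ∧
        (ComputablePred E → Le (W (f j)) (W j) ∧ Le (W j) (W (f j)))) ∧
    (∀ A B : ℕ → Prop, (∃ e, Computes e B A) ↔ Le A B) := by
  refine ⟨fun f j h => upper h, ?_, exists_computes⟩
  intro f g hf hg hgf hE j
  have h1 : LeJ (W (f j)) (W j) E := upper (hE j).1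
  have h2 : LeJ (W j) (W (f j)) E :=
    Helper4RED.TLEJ.trans (Helper4RED.TLE.join (hgf j).2) (upper (hE (f j)).2)
  have h3 : REPred E → Le E (W j) → Le (W (f j)) (W j) ∧ Le (W j) (W (f j)) := by
    intro hre hle
    refine ⟨Helper4RED.TLEJ.tle h1 hle, Helper4RED.TLEJ.tle h2 ?_⟩
    obtain ⟨a, ha⟩ := exists_index hre
    -- E = W a ≤ W (f (g a)) ≤ W (f j)
    have h4 : Le (W (g a)) (W a) := by
      refine Helper4RED.TLEJ.tle (upper (hE a).2) ?_
      rw [ha]
      exact Helper4RED.TLE.refl E
    have h5 : Le (W (g a)) (W j) := by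
      refine Helper4RED.TLE.trans h4 ?_
      rw [ha]
      exact hle
    have h6 : Le (W (f (g a))) (W (f j)) := (hf _ _).1 h5
    have h7 : Le (W a) (W (f (g a))) := (hg _ _).2 (hgf (g a)).2
    rw [← ha]
    exact Helper4RED.TLE.trans h7 h6
  exact ⟨h1, h2, h3, fun hE => h3 hE.to_re (Helper4RED.tle_of_comp hE _)⟩

end Pool.Agent.Results.MP_f28000_lc.IndexAutomorphisms
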