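import Pool.Agent.Helper25_UAU.JumpDich
import Pool.Agent.Helper26_STL.Up

/-!
# MP_f28000_lc: uniformly order preserving maps of r.e. sets

Let `F` be a map of r.e. sets to sets which is uniformly order preserving: either in the sense of
Steel and of Slaman and Steel (for every functional `Φ` there is a functional `Ψ` such that `A = Φ(B)`
implies `F A = Ψ(F B)` for all r.e. sets `A`, `B`), or in the weaker sense that `F` respects the uniform
reducibility of uniformly r.e. sequences.  Suppose that some value of `F` is computable.  Then `F` is
the identity on degrees, or constantly computable, up to an upper cone of r.e. sets `G` for which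
`F G` computes the jump of `G`.  There is no such cone if the values of `F` are r.e.; so every
automorphism of the r.e. degrees which is induced by a uniformly order preserving map is the identity.

Proof.  The values of `F` at the finite sets are uniformly computable.  There is a computable modulus
`m (D, y)` such that `F (D ∪ {x})` and `F D` agree at `y` for all `x ≥ m (D, y)`: a uniformly computable
sequence of finite sets which diagonalizes against all computations of its own image.  For a sparse
copy `Y` of `H` the values `F E` at `y`, for the finite sets `E ⊆ Y` which contain a fixed initial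
segment of `Y`, are all equal.  If this common value is also the value of `F Y` for all `y`, then `F Y`
is computable from `Y`.  If not, let `S` be r.e. in the r.e. set `G`, `Y ≤ G`; a sequence which is
computable from `G` uniformly, with `C m = Y` if `m ∉ S`, and `C m` a finite set as above if `m ∈ S`
(frozen by the computations which put `m` into `S`), shows that `S` is computable from `F G`.
-/

set_option autoImplicit false

namespace Pool.Agent.Results.MP_f28000_lc.UniformMaps

open Pool.Agent.Helper25TD (OCode eval)

open Classical in
/-- the characteristic function of a set -/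
noncomputable def chi (A : ℕ → Prop) : ℕ →. ℕ := fun n => Part.some (if A n then (1 : ℕ) else 0)

/-- `A` is Turing reducible to `B` -/
def Le (A B : ℕ → Prop) : Prop := TuringReducible (chi A) (chi B)

/-- the join of a sequence of sets: the set of the codes of the pairs `(i, x)` with `x ∈ C i` -/
def seqJoin (C : ℕ → ℕ → Prop) : ℕ → Prop := fun n => C (Nat.unpair n).1 (Nat.unpair n).2

/-- the jump of `G` is computable from `X`: every set which is r.e. in `G` (the domain of a partial
function recursive in `G`) is computable from `X` -/
def JumpLe (G X : ℕ → Prop) : Prop :=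
  ∀ f : ℕ →. ℕ, TuringReducible f (chi G) → Le (fun m => (f m).Dom) X

/-- `F` preserves the uniform reducibility of uniformly r.e. sequences to r.e. sets -/
def SequencePreserving (F : (ℕ → Prop) → (ℕ → Prop)) : Prop :=
  ∀ (C : ℕ → ℕ → Prop) (H : ℕ → Prop), REPred (seqJoin C) → REPred H → Le (seqJoin C) H →
    Le (seqJoin fun i => F (C i)) (F H)

/-- `F` is uniformly order preserving: for every oracle computation `c` there is an oracle computation
`d` such that, for all r.e. sets `A`, `B`, if `c` computes `A` from `B` then `d` computes `F A` from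
`F B` -/
def UniformlyOrderPreserving (F : (ℕ → Prop) → (ℕ → Prop)) : Prop :=
  ∀ c : OCode, ∃ d : OCode, ∀ A B : ℕ → Prop, REPred A → REPred B →
    eval (chi B) c = chi A → eval (chi (F B)) d = chi (F A)

/-! ### translations -/

theorem chi_eq (A : ℕ → Prop) : chi A = Pool.Agent.Helper25TD.chi (Pool.Agent.EFA.bo A) := by
  funext n
  unfold chi Pool.Agent.Helper25TD.chi Pool.Agent.EFA.bo
  by_cases h : A n <;> simp [h]

theorem le_iff (A B : ℕ → Prop) : Le A B ↔ Pool.Agent.EFA.Le A B := by
  unfold Le
  rw [chi_eq, chi_eq]
  rfl

theorem jumpLe_of {G X : ℕ → Prop} (h : Pool.Agent.Helper25UAU.JumpLe G X) : JumpLe G X := by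
  intro f hf
  rw [le_iff]
  refine h f (RecursiveIn.iff_nat.1 ?_)
  rw [← chi_eq]
  exact hf

theorem comp_iff (A : ℕ → Prop) : ComputablePred A ↔ Computable (Pool.Agent.EFA.bo A) := by
  constructor
  · rintro ⟨hd, hc⟩
    refine hc.of_eq fun n => ?_
    unfold Pool.Agent.EFA.bo
    rw [decide_eq_decide]
  · intro h
    exact ⟨fun n => Classical.propDecidable _, h⟩

theorem up_of (F : (ℕ → Prop) → (ℕ → Prop))
    (hF : SequencePreserving F ∨ UniformlyOrderPreserving F) : Pool.Agent.Helper25UAU.Up F := by
  rcases hF with hF | hF
  · intro C H hC hH hle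
    exact (le_iff _ _).1 (hF C H hC hH ((le_iff _ _).2 hle))
  · refine Pool.Agent.STL.up_of_uop fun c => ?_
    obtain ⟨d, hd⟩ := hF c
    refine ⟨d, fun A B hA hB h => ?_⟩
    have h1 := hd A B hA hB
    rw [chi_eq, chi_eq, chi_eq, chi_eq] at h1
    exact h1 h

/-- **Theorem.** Let `F` map r.e. sets to sets, and let `F` be uniformly order preserving, or only
preserve the uniform reducibility of sequences; let some value `F A` be computable.  Then
(1) `H ≤ F H` for all r.e. `H`, or `F H` is computable for all r.e. `H` with `F H ≤ H`;
(2) for every r.e. `H`: `F H ≤ H`, or the jump of `G` is computable from `F G` for all r.e. `G ≥ H`;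
(3) if the values of `F` are r.e. then `F H` and `H` have the same degree for all r.e. `H`, or `F H` is
computable for all r.e. `H`; the first if moreover `F` reflects Turing reducibility, in particular if
`F` induces an automorphism of the r.e. degrees. -/
theorem result (F : (ℕ → Prop) → (ℕ → Prop))
    (hF : SequencePreserving F ∨ UniformlyOrderPreserving F)
    (h0 : ∃ A, REPred A ∧ ComputablePred (F A)) :
    ((∀ H, REPred H → Le H (F H)) ∨ (∀ H, REPred H → Le (F H) H → ComputablePred (F H))) ∧
    (∀ H, REPred H → Le (F H) H ∨ ∀ G, REPred G → Le H G → JumpLe G (F G)) ∧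
    ((∀ A, REPred A → REPred (F A)) →
      ((∀ H, REPred H → Le (F H) H ∧ Le H (F H)) ∨ (∀ H, REPred H → ComputablePred (F H))) ∧
      ((∀ A B, REPred A → REPred B → Le (F A) (F B) → Le A B) →
        ∀ H, REPred H → Le (F H) H ∧ Le H (F H))) := by
  have hU := up_of F hF
  have h0' : Computable (Pool.Agent.EFA.bo (F fun _ => False)) := by
    obtain ⟨A, hA, hc⟩ := h0
    refine Pool.Agent.Helper25UAU.comp_of_le ((comp_iff _).1 hc) ?_
    refine Pool.Agent.Helper25UAU.up_le hU Pool.Agent.Helper25UAU.re_false hA ?_
    refine Pool.Agent.Helper25UAU.le_of_comp ?_ A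
    rw [Pool.Agent.Helper25UAU.bo_false]
    exact Computable.const false
  refine ⟨?_, ?_, fun hre => ⟨?_, fun href => ?_⟩⟩
  · rcases Pool.Agent.Helper25UAU.dichJ hU h0' with h | h
    · exact Or.inl fun H hH => (le_iff _ _).2 (h H hH)
    · exact Or.inr fun H hH hle => (comp_iff _).2 (h H hH ((le_iff _ _).1 hle))
  · intro H hH
    rcases Pool.Agent.Helper25UAU.upJ hU h0' hH with h | h
    · exact Or.inl ((le_iff _ _).2 h)
    · exact Or.inr fun G hG hHG => jumpLe_of (h G hG ((le_iff _ _).1 hHG))
  · rcases Pool.Agent.Helper25UAU.selfJ hU h0' hre with h | h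
    · exact Or.inl fun H hH => ⟨(le_iff _ _).2 (h H hH).1, (le_iff _ _).2 (h H hH).2⟩
    · exact Or.inr fun H hH => (comp_iff _).2 (h H hH)
  · intro H hH
    have h := Pool.Agent.Helper25UAU.emb hU h0' hre
      (fun A B hA hB h => (le_iff _ _).1 (href A B hA hB ((le_iff _ _).2 h))) H hH
    exact ⟨(le_iff _ _).2 h.1, (le_iff _ _).2 h.2⟩

end Pool.Agent.Results.MP_f28000_lc.UniformMaps
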